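import Pool.Agent.K4H33.PK.Family

/-!
# Parshin's conjecture from the Tate conjecture over the ground field
-/

set_option autoImplicit false
set_option linter.unusedSectionVars false

open CategoryTheory AlgebraicGeometry Polynomial

universe u v w

namespace Pool.Agent.K4H27.PF

open Pool.Agent.H914 Pool.Agent.H914.VarClass Pool.Agent.H914.VarClass.Obj Pool.Agent.W492.BB
  Pool.Agent.W484.CK Pool.Agent.Y159.Par Pool.Agent.K4H33.WN Pool.Agent.W550.Corr
  Pool.Agent.K4H33.PK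
open Pool.Agent.W484.CH (homog_induction tr_fst tr_snd cl_smul tr_frob tr_eq_zero_of_push
  exists_deg IsDual extBy pairBy proj act_proj_ext kunneth_core exists_poly
  act_cl_polyC polyC op hasKunneth_of)
open Pool.Agent.W458.MF (gen_mul gen_map span_gen_top mem_span_gen eig_mem_gen eq_of_mem_gen)

variable {k : Type u} [Field k] {𝒱 : VarClass k} {C : TheoryData.{u, v, 0} 𝒱 ℚ} {K : Type w}
  [Field K] {Q : ℕ}

/-- The Tate conjecture for `X` over the ground field with `Q` elements, with the semisimplicity of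
Frobenius on the Tate classes: the classes in `H^(2 n)(X)` killed by a power of `F - Q ^ n` are
linear combinations of classes of cycles. -/
def TateExact (H : WeilTheoryData.{u, v, w} C K) (φ : FrobeniusFamily C Q) (X : 𝒱.Obj) : Prop :=
  ∀ (n m : ℕ) (x : H.A X), H.Deg (2 * n : ℕ) x → (frobMinus H φ X n)^[m] x = 0 →
    InSpan H (IsCycleClass H X n) x

variable {H : WeilTheoryData.{u, v, w} C K} {φ : FrobeniusFamily C Q} {X Y Z U P : 𝒱.Obj}

section

variable [CharZero K] [hC : IsChow C] [hH : IsWeil H]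

lemma mem_AK_of_gen' (hX : TateExact H φ X) {n : ℕ} {x : H.A X} (hx : x ∈ H.gr X (2 * n : ℕ))
    (h : x ∈ (fr H φ X).maxGenEigenspace ((Q : K) ^ n)) : x ∈ AK H X n := by
  rw [Module.End.mem_maxGenEigenspace] at h
  obtain ⟨m, hm⟩ := h
  exact hX n m x hx ((iterate_eq' m x).trans hm)

/-- The intersection pairing on the classes of cycles is nondegenerate. -/
theorem AK_nondeg' [IsAlgClosed K] (hQ1 : 1 < Q) (hfin : ∀ X, Module.Finite K (H.A X))
    (hdeg : ∀ (i n : ℕ), IsEigenvalue H φ Z i ((Q : K) ^ n) → i = 2 * n)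
    (hZ : TateExact H φ Z) {n : ℕ} (hn : n ≤ Z.dim) {c : H.A Z} (hc : c ∈ AK H Z n)
    (h : ∀ c' ∈ AK H Z (Z.dim - n), H.tr Z (c * c') = 0) : c = 0 := by
  have hQK : (Q : K) ≠ 0 := by
    have : Q ≠ 0 := by omega
    exact_mod_cast this
  apply H.nondeg
  intro y
  refine homog_induction H.toTheoryData (p := fun y => H.tr Z (c * y) = 0) ?_ ?_ y
  · intro i y hy
    have h1 := span_homog (φ := φ) (hfin Z) hy
    clear hy
    induction h1 using Submodule.span_induction with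
    | mem y hy =>
      obtain ⟨μ, hy, hμ⟩ := hy
      by_cases hy0 : y = 0
      · rw [hy0, mul_zero, map_zero]
      obtain ⟨j, rfl, hj⟩ := exists_degree hy hy0 hμ
      by_cases hQμ : μ = (Q : K) ^ (Z.dim - n)
      · subst hQμ
        obtain rfl := hdeg j _ hj
        exact h y (mem_AK_of_gen' hZ hy hμ)
      · -- the trace of a generalised eigenvector
        have h2 : c * y ∈ (fr H φ Z).maxGenEigenspace ((Q : K) ^ n * μ) := by
          refine gen_mul (LinearMap.mul K (H.A Z)) (T := fr H φ Z) (T' := fr H φ Z)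
            (T'' := fr H φ Z) (fun x y => ?_) (eig_mem_gen (AK_eigen hc)) hμ
          rw [LinearMap.mul_apply', LinearMap.mul_apply', fr_apply, map_mul]
          rfl
        have h3 := gen_map (θ := H.tr Z) (T := fr H φ Z)
          (T' := ((Q : K) ^ Z.dim • (1 : Module.End K K))) (c := (1 : K))
          (ν := (Q : K) ^ n * μ) (fun x => by
            rw [one_smul, fr_apply]
            have := tr_frob (H := H) (Pool.Agent.W484.CK.isFrobenius_bridge (φ.isFrobenius Z)) x
            rw [this]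
            rfl) h2
        rw [one_mul] at h3
        by_contra h0
        have h4 : H.tr Z (c * y) ∈ (((Q : K) ^ Z.dim • (1 : Module.End K K))).maxGenEigenspace
            ((Q : K) ^ Z.dim) := eig_mem_gen rfl
        have h5 := eq_of_mem_gen h3 h4 h0
        apply hQμ
        have h6 : (Q : K) ^ n * (Q : K) ^ (Z.dim - n) = (Q : K) ^ Z.dim := by
          rw [← pow_add]
          congr 1
          omega
        rw [← h6] at h5
        exact mul_left_cancel₀ (pow_ne_zero _ hQK) h5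
    | zero => rw [mul_zero, map_zero]
    | add x y _ _ hx hy => rw [mul_add, map_add, hx, hy, add_zero]
    | smul c x _ hx => rw [mul_smul_comm, map_smul, hx, smul_zero]
  · intro a b ha hb
    rw [mul_add, map_add, ha, hb, add_zero]

/-- **Generalised eigenvectors of `Z × P` lie in the mixed part.** -/
theorem mem_mixA' [IsAlgClosed K] (hS : IsStandard H)
    (hdeg : ∀ (i n : ℕ), IsEigenvalue H φ Z i ((Q : K) ^ n) → i = 2 * n)
    (halg0 : ∀ (i : ℕ) (ρ : K), IsEigenvalue H φ Z i ρ → ∀ c : ℤ, c < 0 → ρ ≠ (Q : K) ^ c)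
    (hZ : TateExact H φ Z) (hP : P.dim = 0) {c : ℤ} {x : H.A (Z.prod P)}
    (hx : x ∈ (fr H φ (Z.prod P)).maxGenEigenspace ((Q : K) ^ c)) : x ∈ mixA H Z P := by
  refine (Submodule.span_le.2 ?_) (gen_homog hS.finite hx)
  rintro _ ⟨m, ⟨l, μ, ν, a, b, ha, hb, hμ, hν, rfl⟩, hc⟩
  by_cases h0 : H.ext a b = 0
  · rw [h0]
    exact Submodule.zero_mem _
  have ha0 : a ≠ 0 := by
    rintro rfl
    exact h0 (H.ext_zero_left _)
  have hb0 : b ≠ 0 := by
    rintro rfl
    exact h0 (H.ext_zero_right _)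
  obtain ⟨i, rfl, h2⟩ := exists_degree ha ha0 hμ
  obtain ⟨j, hj, h3⟩ := exists_degree hb hb0 hν
  have h4 := eq_of_mem_gen (ext_gen hμ hν) hc h0
  -- the eigenvalues of the point
  have hν1 : ν = 1 := by
    obtain ⟨v, hv, hv0, hρ⟩ := h3
    have hd : j = 0 := by
      by_contra hd
      exact hv0 (hS.coh_top P j v (by rw [hP]; push_cast; omega) hv)
    subst hd
    obtain ⟨c, rfl⟩ := hS.coh_zero P v hv
    have h1 : (ν - 1) • (c • (1 : H.A P)) = 0 := by
      rw [sub_smul, ← hρ]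
      change H.pull (φ.F P) (c • 1) - 1 • (c • 1) = 0
      rw [map_smul, map_one, one_smul, sub_self]
    exact sub_eq_zero.1 ((smul_eq_zero.1 h1).resolve_right hv0)
  rw [hν1, mul_one] at h4
  have hc0 : 0 ≤ c := by
    by_contra hneg
    exact halg0 i μ h2 c (by omega) h4
  obtain ⟨n, rfl⟩ := Int.eq_ofNat_of_zero_le hc0
  rw [zpow_natCast] at h4
  subst h4
  obtain rfl := hdeg i n h2
  exact Submodule.subset_span ⟨n, a, b, mem_AK_of_gen' hZ ha hμ, rfl⟩

/-- **The Kunneth formula for `Z × P`.** -/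
theorem kunneth_point [IsAlgClosed K] (hQ1 : 1 < Q) (hS : IsStandard H)
    (halg : ∀ (i : ℕ) (ρ : K), IsEigenvalue H φ (Z.prod P) i ρ → IsIntegral ℚ ρ)
    (hdeg : ∀ (i n : ℕ), IsEigenvalue H φ Z i ((Q : K) ^ n) → i = 2 * n)
    (halg0 : ∀ (i : ℕ) (ρ : K), IsEigenvalue H φ Z i ρ → ∀ c : ℤ, c < 0 → ρ ≠ (Q : K) ^ c)
    (hZ : TateExact H φ Z) (hP : P.dim = 0) (hnil : Nilpotence H (Z.prod P)) :
    ∃ (J : Type) (_ : Fintype J) (deg : J → ℕ) (D : J → C.A Z),
      (∀ j, C.Deg (deg j) (D j)) ∧ ∀ T : MotivicData C, IsMotivic T →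
        ActsAsPower T (φ.F (Z.prod P)) Q → HasKunneth T Z P deg D := by
  obtain ⟨J, hJ, deg, D, E, hdual, hN⟩ := exists_dual hS Z P
    (fun n hn c hc h => AK_nondeg' hQ1 hS.finite hdeg hZ hn hc h)
  refine ⟨J, hJ, deg, D, hdual.left, fun T hT hπ => ?_⟩
  have hfinX : Module.Finite K (H.A (Z.prod P)) := hS.finite _
  refine hasKunneth_of (T := toCorr T) hdual (toCorr_isCorrTheory hT) fun i m hm => ?_
  obtain ⟨R, hR, m', hRm⟩ := exists_poly (Pool.Agent.W484.CH.frob H (φ.F (Z.prod P)))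
    ((Q : ℚ) ^ i) (by
    intro μ v hv0 hv
    -- a homogeneous component
    by_contra hcon
    have hv' : v ∈ (fr H φ (Z.prod P)).maxGenEigenspace μ := eig_mem_gen hv
    apply hv0
    have h1 := gen_homog hS.finite hv'
    have h2 : Submodule.span K {c | ∃ (m : ℤ), c ∈ Gens H φ Z P m ∧
      c ∈ (fr H φ (Z.prod P)).maxGenEigenspace μ} ≤ ⊥ := by
      refine Submodule.span_le.2 ?_
      rintro c ⟨m, ⟨l, μ', ν', a, b, ha, hb, -, -, rfl⟩, hc⟩
      by_contra h0
      have h3 : H.ext a b ∈ H.gr (Z.prod P) (l + (m - l)) := ext_mem ha hb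
      obtain ⟨n, -, hn⟩ := exists_degree h3 (fun h => h0 (by rw [h]; exact Submodule.zero_mem _))
        hc
      exact hcon (halg n μ hn)
    exact (Submodule.mem_bot _).1 (h2 h1))
  refine kunneth_core hdual (toCorr_isCorrTheory hT) (toCorr_actsAsPower hπ)
    (nilpotence_bridge hnil) i R hR (fun w => ?_) hm
  apply act_proj_mixA hdual hN
  rw [act_cl_polyC]
  refine mem_mixA' (c := i) hS hdeg halg0 hZ hP
    ((Module.End.mem_maxGenEigenspace _ _ _).2 ⟨m', ?_⟩)
  have h2 := hRm w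
  push_cast at h2
  exact h2

end

section final

variable {p e : ℕ} [Fact p.Prime] [CharZero K] [hC : IsChow C] [hH : IsWeil H] [IsAlgClosed K]
  {ψ : FrobeniusFamily C (p ^ e)}

lemma ne_zpow_neg (he : 0 < e) (hD : IsPure H ψ p e Z) (i : ℕ) (ρ : K)
    (h : IsEigenvalue H ψ Z i ρ) (c : ℤ) (hc : c < 0) : ρ ≠ ((p ^ e : ℕ) : K) ^ c := by
  intro hρ
  subst hρ
  have hp1 : (1 : ℝ) < p := by exact_mod_cast (Fact.out : p.Prime).one_lt
  have hq1 : (1 : ℝ) < (p : ℝ) ^ e := one_lt_pow₀ hp1 he.ne'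
  have h1 := (hD i _ h).abs (((p ^ e : ℕ) : ℂ) ^ c) (by
    have h2 : ((p ^ e : ℕ) : K) ^ c = algebraMap ℚ K (((p ^ e : ℕ) : ℚ) ^ c) := by
      push_cast
      rfl
    rw [h2, minpoly.eq_X_sub_C, map_sub, aeval_X, aeval_C]
    push_cast
    ring)
  rw [norm_zpow, Complex.norm_natCast] at h1
  have h3 : (((p ^ e : ℕ) : ℝ) ^ c) ^ 2 < 1 := by
    rw [← zpow_natCast, ← zpow_mul]
    have : (1 : ℝ) < ((p ^ e : ℕ) : ℝ) := by exact_mod_cast (by exact_mod_cast hq1)
    exact zpow_lt_one_of_neg₀ this (by push_cast; omega)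
  rw [h1] at h3
  have h4 : (1 : ℝ) ≤ ((p : ℝ) ^ e) ^ i := one_le_pow₀ hq1.le
  linarith

/-- **Parshin's conjecture from the Tate conjecture.** -/
theorem parshin_of_tate (he : 0 < e) (hS : IsStandard H) (hD : IsPure H ψ p e Z)
    (hZ : TateExact H ψ Z) : ParshinHolds H ψ Z := by
  intro P hP hnil T hK hπ hPT
  have hp1 : 1 < p ^ e := Nat.one_lt_pow he.ne' (Fact.out : p.Prime).one_lt
  have hpt : ∀ d ρ, IsEigenvalue H ψ P d ρ → ρ = 1 := by
    rintro d ρ ⟨v, hv, hv0, hρ⟩
    have hd : d = 0 := by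
      by_contra hd
      exact hv0 (hS.coh_top P d v (by rw [hP]; push_cast; omega) hv)
    subst hd
    obtain ⟨c, rfl⟩ := hS.coh_zero P v hv
    have h1 : (ρ - 1) • (c • (1 : H.A P)) = 0 := by
      rw [sub_smul, ← hρ]
      change H.pull (ψ.F P) (c • 1) - 1 • (c • 1) = 0
      rw [map_smul, map_one, one_smul, sub_self]
    exact sub_eq_zero.1 ((smul_eq_zero.1 h1).resolve_right hv0)
  have halg : ∀ (i : ℕ) (ρ : K), IsEigenvalue H ψ (Z.prod P) i ρ → IsIntegral ℚ ρ := by
    intro i ρ hρ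
    obtain ⟨i₁, i₂, μ₁, μ₂, rfl, rfl, h1, h2⟩ := eigenvalue_prod hS.finite hρ
    rw [hpt _ _ h2, mul_one]
    exact (hD _ _ h1).isIntegral
  obtain ⟨J, hJ, deg, D, hDm, hT⟩ := kunneth_point hp1 hS
    halg (fun i n h => weight_of_pure he hD h)
    (fun i ρ h c hc => ne_zpow_neg he hD i ρ h c hc) hZ hP hnil
  have h1 := hT T hK.motivic hπ
  refine parshin_of_prod hK.motivic (P := P) ?_
  rw [parshin_iff hK] at hPT ⊢
  intro n
  have h2 := hPT n
  rw [vanishes_iff] at h2 ⊢
  exact (Pool.Agent.W484.CH.vanish_iff (toCorr_isCorrTheory hK.motivic) h1 n).2 h2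

end final

end Pool.Agent.K4H27.PF
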