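import Pool.Agent.K4H27.PF.Exact
import Pool.Agent.K4H27.FT.Rare

/-!
# Varieties whose cohomology is of Fermat type
-/

set_option autoImplicit false
set_option linter.unusedSectionVars false

open CategoryTheory AlgebraicGeometry Polynomial

universe u v w

namespace Pool.Agent.K4H27.PF

open Pool.Agent.H914 Pool.Agent.H914.VarClass Pool.Agent.H914.VarClass.Obj Pool.Agent.W492.BB
  Pool.Agent.W484.CK Pool.Agent.Y159.Par Pool.Agent.K4H33.WN Pool.Agent.K4H33.PK
  Pool.Agent.H916T
open Pool.Agent.W458.MF (mem_span_gen eig_mem_gen eq_of_mem_gen)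

variable {k : Type u} [Field k] {𝒱 : VarClass k} {C : TheoryData.{u, v, 0} 𝒱 ℚ} {K : Type w}
  [Field K] {Q : ℕ}

/-- The character `s` of degree `m` comes, after raising the degree to a multiple `N * m` with `N`
prime to `p`, from the Tate characters with four entries (surfaces) and the standard characters: it
lies in their closure under union, adding pairs `{a, -a}` and removing them. -/
def Comes (p m : ℕ) (s : Multiset (ZMod m)) : Prop :=
  ∃ N : ℕ, 0 < N ∧ p.Coprime N ∧
    Generated (N * m)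
      (fun t => SurfaceTate p (N * m) t ∨ ∃ q : ℕ, q.Prime ∧ q ∣ N * m ∧ Standard q (N * m) t)
      (s.map fun b => ((N * b.val : ℕ) : ZMod (N * m)))

/-- The number `c` is a Weil number of weight `i` over the field with `Q` elements: an algebraic
integer all of whose complex conjugates have the absolute value `Q ^ (i / 2)`. -/
def IsWeilNum [CharZero K] (Q : ℕ) (i : ℤ) (c : K) : Prop :=
  IsIntegral ℤ c ∧ ∀ z : ℂ, aeval z (minpoly ℚ c) = 0 → ‖z‖ ^ 2 = (Q : ℝ) ^ i

/-- The class `v` in the cohomology of `Z` of degree `i` belongs to the Fermat character `s` of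
degree `m` in characteristic `p`: it is an eigenvector of Frobenius for some eigenvalue `c` (up to
a power of `Q` and a sign the Jacobi sum of `s`), which is a Weil number of weight `i`, such that
`s` is a Tate character if `c = Q ^ (i / 2)` (by the theorem of Stickelberger), and such that `v` is
then a linear combination of classes of cycles if `s` comes from surfaces and standard characters
(Shioda, Katsura, Aoki, Tate). -/
def Belongs [CharZero K] (H : WeilTheoryData.{u, v, w} C K) (φ : FrobeniusFamily C Q) (p m : ℕ)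
    (Z : 𝒱.Obj) (i : ℤ) (s : Multiset (ZMod m)) (v : H.A Z) : Prop :=
  H.Deg i v ∧ ∃ c : K, H.up (φ.F Z) v = c • v ∧ IsWeilNum Q i c ∧ ∀ n : ℕ, i = 2 * n →
    c = (Q : K) ^ n → IsTate p m s ∧ (Comes p m s → InSpan H (IsCycleClass H Z n) v)

/-- The cohomology of `Z` is of Fermat type, with characters from the set `S`: it is spanned by
classes that belong to characters from `S`. -/
def IsFermatType [CharZero K] (H : WeilTheoryData.{u, v, w} C K) (φ : FrobeniusFamily C Q)
    (p m : ℕ) (S : Set (Multiset (ZMod m))) (Z : 𝒱.Obj) : Prop :=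
  ∀ (i : ℤ) (x : H.A Z), H.Deg i x → InSpan H (fun v => ∃ s ∈ S, Belongs H φ p m Z i s v) x

/-- The motive of `X` is a direct summand of a finite direct sum of (twists of) motives of
varieties `Z j` from the class `𝒵`. -/
def IsSummand (C : TheoryData.{u, v, 0} 𝒱 ℚ) (𝒵 : 𝒱.Obj → Prop) (X : 𝒱.Obj) : Prop :=
  ∃ (n : ℕ) (Z : Fin n → 𝒱.Obj) (Γ : ∀ j, C.A (X.prod (Z j))) (Δ : ∀ j, C.A ((Z j).prod X)),
    (∀ j, 𝒵 (Z j)) ∧ ∑ j, compose C (Γ j) (Δ j) = diagonal C X

/-- Parshin's conjecture for the varieties `X` with motives in the class generated by the `Z` from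
`𝒵`: the rational `K`-group `T(X) = K_m(X)_ℚ` vanishes if `T` vanishes for points (for `m > 0` this
is a theorem of Quillen). It is assumed that the homologically trivial self-correspondences of
degree zero of the `Z × P`, `P` a point, are nilpotent. -/
def ParshinFor (H : WeilTheoryData.{u, v, w} C K) (φ : FrobeniusFamily C Q) (𝒵 : 𝒱.Obj → Prop) :
    Prop :=
  ∀ X : 𝒱.Obj, IsSummand C 𝒵 X → ∀ P : 𝒱.Obj, P.dim = 0 →
    (∀ Z, 𝒵 Z → Nilpotence H (Z.prod P)) → ∀ T : MotivicData C, IsRationalKGroup T →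
      (∀ Y : 𝒱.Obj, ActsAsPower T (φ.F Y) Q) → Parshin T P → Parshin T X

variable {H : WeilTheoryData.{u, v, w} C K} {φ : FrobeniusFamily C Q} {X Y Z U P : 𝒱.Obj}

section

variable [CharZero K] [hC : IsChow C] [hH : IsWeil H]

/-- The Tate conjecture for varieties of Fermat type without exceptional characters. -/
theorem tateExact_of_fermat {p m : ℕ} {S : Set (Multiset (ZMod m))}
    (hS : ∀ s ∈ S, IsTate p m s → Comes p m s) (hZ : IsFermatType H φ p m S Z) :
    TateExact H φ Z := by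
  intro n r x hx hr
  have h1 : x ∈ (fr H φ Z).maxGenEigenspace ((Q : K) ^ n) :=
    (Module.End.mem_maxGenEigenspace _ _ _).2 ⟨r, (iterate_eq' r x).symm.trans hr⟩
  have h2 : x ∈ Submodule.span K {v | ∃ s ∈ S, Belongs H φ p m Z (2 * n : ℕ) s v} :=
    hZ _ x hx
  have h3 := mem_span_gen (T := fr H φ Z) (M := {v | ∃ s ∈ S, Belongs H φ p m Z (2 * n : ℕ) s v})
    (by
      rintro v ⟨s, -, -, c, hc, -, -⟩
      exact ⟨c, eig_mem_gen hc⟩) h2 h1
  change x ∈ Submodule.span K {a | IsCycleClass H Z n a}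
  refine (Submodule.span_le.2 ?_) h3
  rintro v ⟨⟨s, hs, -, c, hc, -, hv⟩, hgen⟩
  by_cases hv0 : v = 0
  · rw [hv0]
    exact Submodule.zero_mem _
  have h4 := eq_of_mem_gen (eig_mem_gen (T := fr H φ Z) hc) hgen hv0
  obtain ⟨h5, h6⟩ := hv n (by push_cast; ring) h4
  exact h6 (hS s hs h5)

end

section

variable {p e : ℕ} [Fact p.Prime] [CharZero K] [hC : IsChow C] [hH : IsWeil H] [IsAlgClosed K]
  {ψ : FrobeniusFamily C (p ^ e)}

/-- Varieties of Fermat type are pure. -/
theorem pure_of_fermat {m : ℕ} {S : Set (Multiset (ZMod m))} (hZ : IsFermatType H ψ p m S Z) :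
    IsPure H ψ p e Z := by
  rintro i ρ ⟨x, hx, hx0, hρ⟩
  have h1 : x ∈ (fr H ψ Z).maxGenEigenspace ρ := eig_mem_gen (T := fr H ψ Z) hρ
  have h2 : x ∈ Submodule.span K {v | ∃ s ∈ S, Belongs H ψ p m Z i s v} := hZ _ x hx
  have h3 := mem_span_gen (T := fr H ψ Z) (M := {v | ∃ s ∈ S, Belongs H ψ p m Z i s v})
    (by
      rintro v ⟨s, -, -, c, hc, -, -⟩
      exact ⟨c, eig_mem_gen hc⟩) h2 h1
  by_contra hcon
  apply hx0
  refine (Submodule.mem_bot K).1 ((Submodule.span_le.2 ?_) h3)
  rintro v ⟨⟨s, hs, -, c, hc, hw, -⟩, hgen⟩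
  by_contra hv0
  have hv0' : v ≠ 0 := fun h => hv0 (by rw [h]; exact Submodule.zero_mem _)
  obtain rfl := eq_of_mem_gen (eig_mem_gen (T := fr H ψ Z) hc) hgen hv0'
  refine hcon ⟨hw.1, fun z hz => ?_⟩
  rw [hw.2 z hz, zpow_natCast]
  push_cast
  rfl

theorem parshinFor_of_fermat (he : 0 < e) (hS : IsStandard H) {m : ℕ}
    {S : Set (Multiset (ZMod m))} (hSS : ∀ s ∈ S, IsTate p m s → Comes p m s) :
    ParshinFor H ψ (IsFermatType H ψ p m S) := by
  rintro X ⟨n, Z, Γ, Δ, hZ, hsum⟩ P hP hnil T hK hπ hPT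
  have h1 : ∀ j, Parshin T (Z j) := fun j =>
    parshin_of_tate he hS (pure_of_fermat (hZ j)) (tateExact_of_fermat hSS (hZ j)) P hP
      (hnil _ (hZ j)) T hK (hπ _) hPT
  intro x
  have h2 : T.app (diagonal C X) x = x := hK.motivic.app_id x
  rw [← h2, ← hsum]
  change T.act (∑ j, compose C (Γ j) (Δ j)) x = 0
  rw [map_sum, LinearMap.sum_apply]
  refine Finset.sum_eq_zero fun j _ => ?_
  have h3 := hK.motivic.app_comp (Γ j) (Δ j) x
  change T.app (compose C (Γ j) (Δ j)) x = 0
  rw [h3, h1 j (T.app (Γ j) x)]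
  exact map_zero _

end

end Pool.Agent.K4H27.PF
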